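import Pool.Agent.N295.SR.Stm

/-!
# Project SR of helper295: the geometry (SR/11)
-/

set_option autoImplicit false

open MeasureTheory Set Real

namespace Pool.Agent.N530.SR

open Pool.Agent.N295.SR

lemma nsq (v : E3) : ‖v‖ ^ 2 = v 0 ^ 2 + v 1 ^ 2 + v 2 ^ 2 := by
  rw [EuclideanSpace.norm_sq_eq, Fin.sum_univ_three]
  simp only [Real.norm_eq_abs, sq_abs]

lemma merc0 (t θ : ℝ) : merc t θ 0 = cos θ / cosh t := rfl
lemma merc1 (t θ : ℝ) : merc t θ 1 = sin θ / cosh t := rfl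
lemma merc2 (t θ : ℝ) : merc t θ 2 = tanh t := rfl

theorem CHORD : S_CHORD := by
  intro t θ t' θ'
  have hc : cosh t ≠ 0 := (cosh_pos t).ne'
  have hc' : cosh t' ≠ 0 := (cosh_pos t').ne'
  have h1 := cosh_sq t
  have h2 := cosh_sq t'
  have h3 := sin_sq_add_cos_sq θ
  have h4 := sin_sq_add_cos_sq θ'
  rw [nsq]
  simp only [PiLp.sub_apply, merc0, merc1, merc2, tanh_eq_sinh_div_cosh]
  rw [cosh_sub, cos_sub]
  field_simp
  linear_combination (-(cosh t' ^ 2)) * h1 - (cosh t ^ 2) * h2 + (cosh t' ^ 2) * h3 +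
    (cosh t ^ 2) * h4

lemma norm_merc (t θ : ℝ) : ‖merc t θ‖ = 1 := by
  have hc : cosh t ≠ 0 := (cosh_pos t).ne'
  have h1 := cosh_sq t
  have h3 := sin_sq_add_cos_sq θ
  have h : ‖merc t θ‖ ^ 2 = 1 := by
    rw [nsq, merc0, merc1, merc2, tanh_eq_sinh_div_cosh]
    field_simp
    linear_combination h3 - h1
  nlinarith [norm_nonneg (merc t θ)]

theorem COORD : S_COORD := by
  refine ⟨fun t θ => ⟨norm_merc t θ, rfl⟩, fun p hp h2 => ?_⟩
  have hn := nsq p
  rw [hp, one_pow] at hn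
  have h3 : 0 < 1 - p 2 ^ 2 := by
    have := (sq_lt_one_iff_abs_lt_one (p 2)).2 h2
    linarith
  obtain ⟨r, hr⟩ : ∃ r, r = Real.sqrt (1 - p 2 ^ 2) := ⟨_, rfl⟩
  have hr0 : 0 < r := by rw [hr]; exact Real.sqrt_pos.2 h3
  have hr2 : r ^ 2 = 1 - p 2 ^ 2 := by rw [hr]; exact Real.sq_sqrt h3.le
  obtain ⟨t, ht⟩ : ∃ t, sinh t = p 2 / r := ⟨arsinh (p 2 / r), sinh_arsinh _⟩
  have hcosh : cosh t = 1 / r := by
    have h4 : cosh t ^ 2 = (1 / r) ^ 2 := by
      rw [cosh_sq, ht]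
      field_simp
      linarith
    have h5 : 0 < 1 / r := by positivity
    have h6 := cosh_pos t
    nlinarith
  have htanh : tanh t = p 2 := by
    rw [tanh_eq_sinh_div_cosh, ht, hcosh]
    field_simp
  -- the angle
  obtain ⟨θ, hθ0, hθ1, hc, hs⟩ : ∃ θ : ℝ, 0 ≤ θ ∧ θ < 2 * π ∧ p 0 = r * cos θ ∧
      p 1 = r * sin θ := by
    obtain ⟨z, hz⟩ : ∃ z : ℂ, z = ⟨p 0, p 1⟩ := ⟨_, rfl⟩
    have hzr : ‖z‖ = r := by
      have h4 : ‖z‖ ^ 2 = r ^ 2 := by
        rw [← Complex.normSq_eq_norm_sq, Complex.normSq_apply, hz, hr2]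
        simp only
        nlinarith
      nlinarith [norm_nonneg z]
    have hz0 : z ≠ 0 := by
      intro h
      rw [h, norm_zero] at hzr
      exact hr0.ne hzr
    have hc := Complex.cos_arg hz0
    have hs := Complex.sin_arg z
    rw [hzr] at hc hs
    have hcz : z.re = r * cos (Complex.arg z) := by
      rw [hc]
      field_simp
    have hsz : z.im = r * sin (Complex.arg z) := by
      rw [hs]
      field_simp
    have h0 : z.re = p 0 := by rw [hz]
    have h1 : z.im = p 1 := by rw [hz]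
    have ha := Complex.arg_le_pi z
    have ha' := Complex.neg_pi_lt_arg z
    have hpi := Real.pi_pos
    by_cases h : 0 ≤ Complex.arg z
    · exact ⟨Complex.arg z, h, by linarith, by rw [← h0, hcz], by rw [← h1, hsz]⟩
    · refine ⟨Complex.arg z + 2 * π, by linarith, by linarith, ?_, ?_⟩
      · rw [cos_add_two_pi, ← h0, hcz]
      · rw [sin_add_two_pi, ← h1, hsz]
  refine ⟨t, θ, hθ0, hθ1, ?_⟩
  ext i
  fin_cases i
  · show p 0 = merc t θ 0
    rw [merc0, hcosh, hc]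
    field_simp
  · show p 1 = merc t θ 1
    rw [merc1, hcosh, hs]
    field_simp
  · show p 2 = merc t θ 2
    rw [merc2, htanh]

/-! ### great circles -/

/-- a unit vector orthogonal to `p` -/
lemma exists_orth (p : E3) (hp : ‖p‖ = 1) :
    ∃ e : E3, ‖e‖ = 1 ∧ p 0 * e 0 + p 1 * e 1 + p 2 * e 2 = 0 := by
  have hn := nsq p
  rw [hp, one_pow] at hn
  have key : ∀ v : E3, v ≠ 0 → p 0 * v 0 + p 1 * v 1 + p 2 * v 2 = 0 →
      ∃ e : E3, ‖e‖ = 1 ∧ p 0 * e 0 + p 1 * e 1 + p 2 * e 2 = 0 := by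
    intro v hv h
    have hv' : ‖v‖ ≠ 0 := norm_ne_zero_iff.2 hv
    refine ⟨‖v‖⁻¹ • v, ?_, ?_⟩
    · rw [norm_smul, norm_inv, norm_norm, inv_mul_cancel₀ hv']
    · simp only [PiLp.smul_apply, smul_eq_mul]
      linear_combination ‖v‖⁻¹ * h
  by_cases h : p 0 = 0 ∧ p 1 = 0
  · refine key !₂[0, -p 2, p 1] ?_ ?_
    · intro h1
      have h2 : (!₂[(0 : ℝ), -p 2, p 1] : E3) 1 = 0 := by rw [h1]; rfl
      have h3 : -p 2 = 0 := h2
      rw [h.1, h.2] at hn
      nlinarith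
    · show p 0 * 0 + p 1 * (-p 2) + p 2 * p 1 = 0
      ring
  · refine key !₂[-p 1, p 0, 0] ?_ ?_
    · intro h1
      have h2 : (!₂[-p 1, p 0, (0 : ℝ)] : E3) 0 = 0 := by rw [h1]; rfl
      have h2' : (!₂[-p 1, p 0, (0 : ℝ)] : E3) 1 = 0 := by rw [h1]; rfl
      have h3 : -p 1 = 0 := h2
      have h4 : p 0 = 0 := h2'
      exact h ⟨h4, by linarith⟩
    · show p 0 * (-p 1) + p 1 * p 0 + p 2 * 0 = 0
      ring

/-- the great circle through `p` and `q` -/
lemma great (p q : E3) (hp : ‖p‖ = 1) (hq : ‖q‖ = 1) : ∃ (e : E3) (α : ℝ), ‖e‖ = 1 ∧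
    p 0 * e 0 + p 1 * e 1 + p 2 * e 2 = 0 ∧ 0 ≤ α ∧ α ≤ π ∧ q = cos α • p + sin α • e := by
  have hpn := nsq p
  have hqn := nsq q
  rw [hp, one_pow] at hpn
  rw [hq, one_pow] at hqn
  obtain ⟨c, hc⟩ : ∃ c, c = p 0 * q 0 + p 1 * q 1 + p 2 * q 2 := ⟨_, rfl⟩
  obtain ⟨v, hv⟩ : ∃ v : E3, v = q - c • p := ⟨_, rfl⟩
  have hvi : ∀ i, v i = q i - c * p i := by
    intro i
    rw [hv]
    rfl
  have hvn : ‖v‖ ^ 2 = 1 - c ^ 2 := by
    rw [nsq, hvi, hvi, hvi]
    linear_combination (c ^ 2) * (-hpn) - hqn + 2 * c * hc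
  have hc1 : c ^ 2 ≤ 1 := by nlinarith [sq_nonneg ‖v‖]
  have hcl : -1 ≤ c := by nlinarith
  have hcu : c ≤ 1 := by nlinarith
  have hcos : cos (arccos c) = c := cos_arccos hcl hcu
  have hsin : sin (arccos c) = ‖v‖ := by
    rw [sin_arccos, ← hvn, Real.sqrt_sq (norm_nonneg v)]
  by_cases h : v = 0
  · obtain ⟨e, he, he'⟩ := exists_orth p hp
    refine ⟨e, arccos c, he, he', arccos_nonneg c, arccos_le_pi c, ?_⟩
    rw [hcos, hsin, h, norm_zero, zero_smul, add_zero]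
    rw [hv, sub_eq_zero] at h
    exact h
  · have hv' : ‖v‖ ≠ 0 := norm_ne_zero_iff.2 h
    refine ⟨‖v‖⁻¹ • v, arccos c, ?_, ?_, arccos_nonneg c, arccos_le_pi c, ?_⟩
    · rw [norm_smul, norm_inv, norm_norm, inv_mul_cancel₀ hv']
    · simp only [PiLp.smul_apply, smul_eq_mul, hvi]
      linear_combination ‖v‖⁻¹ * (c * hpn - hc)
    · rw [hcos, hsin, smul_smul, mul_inv_cancel₀ hv', one_smul, hv]
      abel

lemma circ_norm (p e : E3) (hp : ‖p‖ = 1) (he : ‖e‖ = 1)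
    (ho : p 0 * e 0 + p 1 * e 1 + p 2 * e 2 = 0) (a b : ℝ) :
    ‖a • p + b • e‖ ^ 2 = a ^ 2 + b ^ 2 := by
  have hpn := nsq p
  have hen := nsq e
  rw [hp, one_pow] at hpn
  rw [he, one_pow] at hen
  rw [nsq]
  simp only [PiLp.add_apply, PiLp.smul_apply, smul_eq_mul]
  linear_combination (-a ^ 2) * hpn - b ^ 2 * hen + 2 * a * b * ho

/-- the admissible curve -/
lemma curve (p q : E3) (hp : ‖p‖ = 1) (hq : ‖q‖ = 1) : ∃ (γ : ℝ → E3) (α : ℝ),
    ContDiff ℝ 1 γ ∧ (∀ s, ‖γ s‖ = 1) ∧ γ 0 = p ∧ γ 1 = q ∧ 0 ≤ α ∧ (∀ s, ‖deriv γ s‖ = α) ∧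
    α ≤ π / 2 * ‖p - q‖ := by
  obtain ⟨e, α, he, ho, h0, hπ, hqe⟩ := great p q hp hq
  have hd : ∀ s, HasDerivAt (fun s : ℝ => cos (α * s) • p + sin (α * s) • e)
      ((-(sin (α * s) * α)) • p + (cos (α * s) * α) • e) s := by
    intro s
    have h1 : HasDerivAt (fun s : ℝ => α * s) α s := by
      simpa using (hasDerivAt_id s).const_mul α
    have h2 := h1.cos.smul_const p
    have h3 := h1.sin.smul_const e
    have h4 := h2.add h3
    have h5 : (-(sin (α * s) * α)) = -sin (α * s) * α := by ring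
    rw [h5]
    exact h4
  refine ⟨fun s => cos (α * s) • p + sin (α * s) • e, α, ?_, ?_, ?_, ?_, h0, ?_, ?_⟩
  · have h1 : ContDiff ℝ 1 (fun s : ℝ => α * s) := contDiff_const.mul contDiff_id
    exact (h1.cos.smul contDiff_const).add (h1.sin.smul contDiff_const)
  · intro s
    have h1 := circ_norm p e hp he ho (cos (α * s)) (sin (α * s))
    rw [cos_sq_add_sin_sq] at h1
    nlinarith [norm_nonneg (cos (α * s) • p + sin (α * s) • e)]
  · simp
  · simp only [mul_one]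
    exact hqe.symm
  · intro s
    rw [(hd s).deriv]
    have h1 := circ_norm p e hp he ho (-(sin (α * s) * α)) (cos (α * s) * α)
    have h2 := sin_sq_add_cos_sq (α * s)
    have h3 : ‖(-(sin (α * s) * α)) • p + (cos (α * s) * α) • e‖ ^ 2 = α ^ 2 := by
      rw [h1]
      linear_combination α ^ 2 * h2
    exact (sq_eq_sq₀ (norm_nonneg _) h0).1 h3
  · have h1 : ‖p - q‖ ^ 2 = (2 * sin (α / 2)) ^ 2 := by
      have h2 : p - q = (1 - cos α) • p + (-sin α) • e := by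
        rw [hqe]
        module
      rw [h2, circ_norm p e hp he ho]
      have h3 : cos α = 1 - 2 * sin (α / 2) ^ 2 := by
        have h4 := cos_sq' (α / 2)
        have h5 := cos_two_mul (α / 2)
        have h6 : 2 * (α / 2) = α := by ring
        rw [h6] at h5
        linarith
      have h7 := sin_sq_add_cos_sq α
      nlinarith
    have h2 : 2 / π * (α / 2) ≤ sin (α / 2) := mul_le_sin (by linarith) (by linarith)
    have h3 : 0 ≤ sin (α / 2) := by
      refine le_trans ?_ h2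
      have := Real.pi_pos
      positivity
    have h4 : ‖p - q‖ = 2 * sin (α / 2) :=
      (sq_eq_sq₀ (norm_nonneg _) (by linarith)).1 h1
    rw [h4]
    have hpi := Real.pi_pos
    have h5 : π * (2 / π * (α / 2)) ≤ π * sin (α / 2) := mul_le_mul_of_nonneg_left h2 hpi.le
    have h6 : π * (2 / π * (α / 2)) = α := by
      field_simp
    linarith

/-! ### the distance -/

lemma len_nonneg (ρ : ℝ → ℝ) (γ : ℝ → E3) : 0 ≤ len ρ γ := by
  unfold len
  refine intervalIntegral.integral_nonneg (by norm_num) fun s _ => ?_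
  positivity

lemma bdd (ρ : ℝ → ℝ) (p q : E3) : BddBelow {l : ℝ | ∃ γ : ℝ → E3, ContDiff ℝ 1 γ ∧
    (∀ s, ‖γ s‖ = 1) ∧ γ 0 = p ∧ γ 1 = q ∧ l = len ρ γ} := by
  refine ⟨0, ?_⟩
  rintro l ⟨γ, -, -, -, -, rfl⟩
  exact len_nonneg ρ γ

lemma cont_int {ρ : ℝ → ℝ} (hρ : Continuous ρ) {γ : ℝ → E3} (hγ : ContDiff ℝ 1 γ) :
    Continuous (fun s => Real.sqrt (ρ (γ s 2)) * ‖deriv γ s‖) := by
  have h1 : Continuous (fun s => γ s 2) :=
    (EuclideanSpace.proj (𝕜 := ℝ) (2 : Fin 3)).continuous.comp hγ.continuous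
  exact ((hρ.comp h1).sqrt).mul (hγ.continuous_deriv le_rfl).norm

theorem DUP : S_DUP := by
  intro ρ ρM hρ hρ0 hρM p q hp hq
  obtain ⟨γ, α, h1, h2, h3, h4, h5, h6, h7⟩ := curve p q hp hq
  have h8 : gdist ρ p q ≤ len ρ γ := csInf_le (bdd ρ p q) ⟨γ, h1, h2, h3, h4, rfl⟩
  have h9 : len ρ γ ≤ Real.sqrt ρM * α := by
    unfold len
    have h10 : (∫ s in (0 : ℝ)..1, Real.sqrt (ρ (γ s 2)) * ‖deriv γ s‖) ≤
        ∫ s in (0 : ℝ)..1, Real.sqrt ρM * α := by
      refine intervalIntegral.integral_mono (by norm_num)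
        ((cont_int hρ h1).intervalIntegrable _ _) (by simp) fun s => ?_
      show Real.sqrt (ρ (γ s 2)) * ‖deriv γ s‖ ≤ Real.sqrt ρM * α
      rw [h6 s]
      exact mul_le_mul_of_nonneg_right (Real.sqrt_le_sqrt (hρM _)) h5
    refine h10.trans (le_of_eq ?_)
    simp
  have h10 : Real.sqrt ρM * α ≤ Real.sqrt ρM * (π / 2 * ‖p - q‖) :=
    mul_le_mul_of_nonneg_left h7 (Real.sqrt_nonneg _)
  calc gdist ρ p q ≤ Real.sqrt ρM * (π / 2 * ‖p - q‖) := h8.trans (h9.trans h10)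
    _ = π / 2 * Real.sqrt ρM * ‖p - q‖ := by ring

theorem DLOW : S_DLOW := by
  intro ρ ρm hρ hρm hρ' p q hp hq
  refine le_csInf ?_ ?_
  · obtain ⟨γ, α, h1, h2, h3, h4, h5, h6, h7⟩ := curve p q hp hq
    exact ⟨_, γ, h1, h2, h3, h4, rfl⟩
  · rintro l ⟨γ, h1, h2, h3, h4, rfl⟩
    have hdc : Continuous (deriv γ) := h1.continuous_deriv le_rfl
    have h5 : ∫ s in (0 : ℝ)..1, deriv γ s = γ 1 - γ 0 := by
      refine intervalIntegral.integral_deriv_eq_sub (fun s _ =>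
        (h1.differentiable one_ne_zero).differentiableAt) (hdc.intervalIntegrable _ _)
    have h6 : ‖p - q‖ ≤ ∫ s in (0 : ℝ)..1, ‖deriv γ s‖ := by
      rw [← h3, ← h4, norm_sub_rev, ← h5]
      exact intervalIntegral.norm_integral_le_integral_norm (by norm_num)
    have h7 : Real.sqrt ρm * ∫ s in (0 : ℝ)..1, ‖deriv γ s‖ ≤ len ρ γ := by
      rw [← intervalIntegral.integral_const_mul]
      unfold len
      refine intervalIntegral.integral_mono (by norm_num)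
        ((continuous_const.mul hdc.norm).intervalIntegrable _ _)
        ((cont_int hρ h1).intervalIntegrable _ _) fun s => ?_
      exact mul_le_mul_of_nonneg_right (Real.sqrt_le_sqrt (hρ' _)) (norm_nonneg _)
    exact (mul_le_mul_of_nonneg_left h6 (Real.sqrt_nonneg _)).trans h7

/-! ### the reflection -/

/-- the reflection as a linear map -/
noncomputable def reflL : E3 →L[ℝ] E3 :=
  LinearMap.toContinuousLinearMap
    { toFun := refl
      map_add' := fun x y => by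
        ext i
        fin_cases i
        · rfl
        · rfl
        · show -(x 2 + y 2) = -x 2 + -y 2
          ring
      map_smul' := fun a x => by
        ext i
        fin_cases i
        · rfl
        · rfl
        · show -(a * x 2) = a * -x 2
          ring }

lemma reflL_apply (x : E3) : reflL x = refl x := rfl

lemma norm_refl (x : E3) : ‖refl x‖ = ‖x‖ := by
  have h1 : ‖refl x‖ ^ 2 = ‖x‖ ^ 2 := by
    rw [nsq, nsq]
    show x 0 ^ 2 + x 1 ^ 2 + (-x 2) ^ 2 = _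
    ring
  exact (sq_eq_sq₀ (norm_nonneg _) (norm_nonneg _)).1 h1

lemma refl_refl (x : E3) : refl (refl x) = x := by
  ext i
  fin_cases i
  · rfl
  · rfl
  · show - -x 2 = x 2
    ring

lemma refl_mem (ρ : ℝ → ℝ) (p q : E3) (l : ℝ) (h : ∃ γ : ℝ → E3, ContDiff ℝ 1 γ ∧
    (∀ s, ‖γ s‖ = 1) ∧ γ 0 = p ∧ γ 1 = q ∧ l = len ρ γ) :
    ∃ γ : ℝ → E3, ContDiff ℝ 1 γ ∧ (∀ s, ‖γ s‖ = 1) ∧ γ 0 = refl p ∧ γ 1 = refl q ∧
      l = len (fun z => ρ (-z)) γ := by
  obtain ⟨γ, h1, h2, h3, h4, rfl⟩ := h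
  refine ⟨fun s => refl (γ s), ?_, ?_, ?_, ?_, ?_⟩
  · exact reflL.contDiff.comp h1
  · intro s
    rw [norm_refl, h2]
  · simp only [h3]
  · simp only [h4]
  · unfold len
    refine intervalIntegral.integral_congr fun s _ => ?_
    have h5 : HasDerivAt γ (deriv γ s) s :=
      (h1.differentiable one_ne_zero).differentiableAt.hasDerivAt
    have h6 : HasDerivAt (fun s => refl (γ s)) (refl (deriv γ s)) s :=
      reflL.hasFDerivAt.comp_hasDerivAt s h5
    show Real.sqrt (ρ (γ s 2)) * ‖deriv γ s‖ =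
      Real.sqrt (ρ (-(refl (γ s) 2))) * ‖deriv (fun s => refl (γ s)) s‖
    rw [h6.deriv, norm_refl]
    have h7 : -(refl (γ s) 2) = γ s 2 := by
      show - -(γ s 2) = γ s 2
      ring
    rw [h7]

theorem REFL : S_REFL := by
  intro ρ p q
  unfold gdist
  congr 1
  ext l
  constructor
  · intro h
    have h1 := refl_mem _ _ _ _ h
    simp only [neg_neg, refl_refl] at h1
    exact h1
  · intro h
    exact refl_mem _ _ _ _ h

end Pool.Agent.N530.SR
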